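import Mathlib
import Pool.Agent.H952R2.Sextic.CommonZero

/-!
Through every point of projective space there is a line on which given forms have given multiple
zeros, if the number of conditions is not too large.
-/

set_option autoImplicit false

namespace Pool.Agent.NH27.K

open MvPolynomial

variable {L : Type} [Field L] {n : ℕ}

/-- the restriction of a form to a line -/
noncomputable def res {R : Type} [CommRing R] [Algebra L R] (x y : Fin (n + 1) → R)
    (G : MvPolynomial (Fin (n + 1)) L) : Polynomial R :=
  aeval (fun j => Polynomial.C (x j) + Polynomial.X * Polynomial.C (y j)) G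

theorem res_map {R S : Type} [CommRing R] [Algebra L R] [CommRing S] [Algebra L S] (φ : R →ₐ[L] S)
    (x y : Fin (n + 1) → R) (G : MvPolynomial (Fin (n + 1)) L) :
    (res x y G).map φ.toRingHom = res (fun j => φ (x j)) (fun j => φ (y j)) G := by
  unfold res
  have h1 := comp_aeval_apply (f := fun j => Polynomial.C (x j) + Polynomial.X * Polynomial.C (y j))
    (Polynomial.mapAlgHom φ) G
  have h2 : ∀ P : Polynomial R, P.map φ.toRingHom = Polynomial.mapAlgHom φ P := fun P => rfl
  rw [h2, h1]
  congr 2
  funext j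
  simp

theorem res_natDegree {R : Type} [CommRing R] [Algebra L R] (x y : Fin (n + 1) → R)
    {G : MvPolynomial (Fin (n + 1)) L} {d : ℕ} (hG : G.IsHomogeneous d) :
    (res x y G).natDegree ≤ d := by
  unfold res
  rw [aeval_def, eval₂_eq]
  refine Polynomial.natDegree_sum_le_of_forall_le _ _ fun m hm => ?_
  have hd : m.degree = d := by
    have := hG (mem_support_iff.1 hm)
    rw [Finsupp.degree_eq_weight_one]
    exact this
  refine (Polynomial.natDegree_mul_le).trans ?_
  have h1 : (algebraMap L (Polynomial R) (coeff m G)).natDegree = 0 := by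
    rw [Polynomial.algebraMap_apply, Polynomial.natDegree_C]
  rw [h1, zero_add]
  refine (Polynomial.natDegree_prod_le _ _).trans ?_
  have h2 : ∀ i ∈ m.support, ((Polynomial.C (x i) + Polynomial.X * Polynomial.C (y i)) ^ m i :
      Polynomial R).natDegree ≤ m i := by
    intro i _
    refine (Polynomial.natDegree_pow_le).trans ?_
    have : (Polynomial.C (x i) + Polynomial.X * Polynomial.C (y i) : Polynomial R).natDegree ≤ 1 := by
      refine (Polynomial.natDegree_add_le _ _).trans ?_
      rw [Polynomial.natDegree_C]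
      refine max_le (by omega) ?_
      refine (Polynomial.natDegree_mul_le).trans ?_
      rw [Polynomial.natDegree_C, add_zero]
      exact Polynomial.natDegree_X_le
    calc m i * _ ≤ m i * 1 := Nat.mul_le_mul_left _ this
      _ = m i := mul_one _
  refine (Finset.sum_le_sum h2).trans ?_
  rw [← hd, Finsupp.degree]
  exact le_rfl

theorem res_coeff_zero {R : Type} [CommRing R] [Algebra L R] (x y : Fin (n + 1) → R)
    (G : MvPolynomial (Fin (n + 1)) L) : (res x y G).coeff 0 = aeval x G := by
  rw [Polynomial.coeff_zero_eq_eval_zero]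
  unfold res
  have h1 := comp_aeval_apply (f := fun j => Polynomial.C (x j) + Polynomial.X * Polynomial.C (y j))
    ((Polynomial.aeval (0 : R)).restrictScalars L) G
  have h2 : ∀ P : Polynomial R, ((Polynomial.aeval (0 : R)).restrictScalars L) P = P.eval 0 := by
    intro P
    rw [AlgHom.restrictScalars_apply, Polynomial.coe_aeval_eq_eval]
  rw [h2] at h1
  rw [h1]
  congr 2
  funext j
  rw [h2]
  simp

theorem res_eval {M : Type} [Field M] [Algebra L M] (x y : Fin (n + 1) → M)
    (G : MvPolynomial (Fin (n + 1)) L) (t : M) :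
    (res x y G).eval t = aeval (fun j => x j + t * y j) G := by
  unfold res
  have h1 := comp_aeval_apply (f := fun j => Polynomial.C (x j) + Polynomial.X * Polynomial.C (y j))
    ((Polynomial.aeval t).restrictScalars L) G
  have h2 : ∀ P : Polynomial M, ((Polynomial.aeval t).restrictScalars L) P = P.eval t := by
    intro P
    rw [AlgHom.restrictScalars_apply, Polynomial.coe_aeval_eq_eval]
  rw [h2] at h1
  rw [h1]
  congr 2
  funext j
  rw [h2, Polynomial.eval_add, Polynomial.eval_mul, Polynomial.eval_C, Polynomial.eval_C,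
    Polynomial.eval_X]

/-- the expected restriction -/
noncomputable def fac {R : Type} [CommRing R] {s : ℕ} (c : R) (γ : Fin s → R) (e : Fin s → ℕ) :
    Polynomial R :=
  Polynomial.C c * ∏ k, (1 - Polynomial.C (γ k) * Polynomial.X) ^ e k

theorem fac_natDegree {R : Type} [CommRing R] {s : ℕ} (c : R) (γ : Fin s → R) (e : Fin s → ℕ) :
    (fac c γ e).natDegree ≤ ∑ k, e k := by
  unfold fac
  refine (Polynomial.natDegree_C_mul_le _ _).trans ?_
  refine (Polynomial.natDegree_prod_le _ _).trans (Finset.sum_le_sum fun k _ => ?_)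
  refine (Polynomial.natDegree_pow_le).trans ?_
  have : (1 - Polynomial.C (γ k) * Polynomial.X : Polynomial R).natDegree ≤ 1 := by
    refine (Polynomial.natDegree_sub_le _ _).trans ?_
    rw [Polynomial.natDegree_one]
    refine max_le (by omega) ?_
    exact (Polynomial.natDegree_C_mul_le _ _).trans Polynomial.natDegree_X_le
  calc e k * _ ≤ e k * 1 := Nat.mul_le_mul_left _ this
    _ = e k := mul_one _

theorem fac_coeff_zero {R : Type} [CommRing R] {s : ℕ} (c : R) (γ : Fin s → R) (e : Fin s → ℕ) :
    (fac c γ e).coeff 0 = c := by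
  rw [Polynomial.coeff_zero_eq_eval_zero]
  unfold fac
  rw [Polynomial.eval_mul, Polynomial.eval_C, Polynomial.eval_prod]
  simp

theorem fac_map {R S : Type} [CommRing R] [CommRing S] (φ : R →+* S) {s : ℕ} (c : R)
    (γ : Fin s → R) (e : Fin s → ℕ) :
    (fac c γ e).map φ = fac (φ c) (fun k => φ (γ k)) e := by
  unfold fac
  rw [Polynomial.map_mul, Polynomial.map_C, Polynomial.map_prod]
  congr 1
  refine Finset.prod_congr rfl fun k _ => ?_
  rw [Polynomial.map_pow, Polynomial.map_sub, Polynomial.map_mul, Polynomial.map_C,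
    Polynomial.map_X, Polynomial.map_one]

/-- **Lines with prescribed contact.** -/
theorem exists_line_poly [IsAlgClosed L] {ι κ : Type} [Fintype ι] [Fintype κ]
    {F : ι → MvPolynomial (Fin (n + 1)) L} {dF : ι → ℕ} (hF : ∀ i, (F i).IsHomogeneous (dF i))
    {Q : κ → MvPolynomial (Fin (n + 1)) L} {dQ : κ → ℕ} (hQ : ∀ j, (Q j).IsHomogeneous (dQ j))
    {s : ℕ} (e : κ → Fin s → ℕ) (he : ∀ j, ∑ k, e j k = dQ j) (hs : ∀ k, ∃ j, e j k ≠ 0)
    (hcard : ∑ i, dF i + ∑ j, dQ j < n + s) {x : Fin (n + 1) → L} (hx : x ≠ 0)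
    (hxF : ∀ i, aeval x (F i) = 0) (hxQ : ∀ j, aeval x (Q j) ≠ 0) :
    ∃ (y : Fin (n + 1) → L) (γ : Fin s → L), (∀ c : L, y ≠ c • x) ∧
      (∀ i, res x y (F i) = 0) ∧ ∀ j, res x y (Q j) = fac (aeval x (Q j)) γ (e j) := by
  classical
  obtain ⟨i0, hi0⟩ : ∃ i0, x i0 ≠ 0 := by
    by_contra hcon
    push Not at hcon
    exact hx (funext hcon)
  let U := {j : Fin (n + 1) // j ≠ i0} ⊕ Fin s
  let R := MvPolynomial U L
  let Y : Fin (n + 1) → R := fun j => if h : j = i0 then 0 else X (Sum.inl ⟨j, h⟩)
  let Γ : Fin s → R := fun k => X (Sum.inr k)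
  let xR : Fin (n + 1) → R := fun j => C (x j)
  let E := (Σ i : ι, Fin (dF i)) ⊕ (Σ j : κ, Fin (dQ j))
  let f : E → R := Sum.elim (fun p => (res xR Y (F p.1)).coeff (p.2 + 1))
    (fun p => (res xR Y (Q p.1) - fac (C (aeval x (Q p.1))) Γ (e p.1)).coeff (p.2 + 1))
  have hU : Fintype.card U = n + s := by
    rw [Fintype.card_sum, Fintype.card_fin, Fintype.card_subtype_compl, Fintype.card_fin,
      Fintype.card_subtype_eq]
    rfl
  have hE : Fintype.card E = ∑ i, dF i + ∑ j, dQ j := by
    rw [Fintype.card_sum, Fintype.card_sigma, Fintype.card_sigma]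
    simp
  -- evaluation at a point
  let yv : (U → L) → Fin (n + 1) → L := fun v j => if h : j = i0 then 0 else v (Sum.inl ⟨j, h⟩)
  let γv : (U → L) → Fin s → L := fun v k => v (Sum.inr k)
  have hev1 : ∀ (v : U → L) (G : MvPolynomial (Fin (n + 1)) L),
      (res xR Y G).map (aeval v : R →ₐ[L] L).toRingHom = res x (yv v) G := by
    intro v G
    rw [res_map]
    congr 1
    · funext j
      simp [xR]
    · funext j
      simp only [Y, yv]
      split_ifs with h
      · rw [map_zero]
      · rw [aeval_X]
  have hev2 : ∀ (v : U → L) (c : L) (a : Fin s → ℕ),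
      (fac (C c) Γ a : Polynomial R).map (aeval v : R →ₐ[L] L).toRingHom = fac c (γv v) a := by
    intro v c a
    rw [fac_map]
    congr 1
    · change aeval v (C c : R) = c
      rw [aeval_C]
      rfl
    · funext k
      change aeval v (X (Sum.inr k) : R) = _
      rw [aeval_X]
  have hf : ∀ (v : U → L) (p : E), eval v (f p) = Sum.elim
      (fun p => (res x (yv v) (F p.1)).coeff (p.2 + 1))
      (fun p => (res x (yv v) (Q p.1) - fac (aeval x (Q p.1)) (γv v) (e p.1)).coeff (p.2 + 1)) p := by
    intro v p
    have h0 : ∀ r : R, eval v r = (aeval v : R →ₐ[L] L).toRingHom r := by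
      intro r
      exact (congrArg (fun g => g r) (coe_aeval_eq_eval v)).symm
    rw [h0]
    rcases p with p | p
    · simp only [f, Sum.elim_inl]
      rw [← Polynomial.coeff_map, hev1]
    · simp only [f, Sum.elim_inr]
      rw [← Polynomial.coeff_map, Polynomial.map_sub, hev1, hev2]
  have hres0 : ∀ G : MvPolynomial (Fin (n + 1)) L, res x (yv 0) G = Polynomial.C (aeval x G) := by
    intro G
    have h1 : yv 0 = 0 := by
      funext j
      simp only [yv]
      split_ifs <;> rfl
    rw [h1]
    unfold res
    have h2 := comp_aeval_apply (f := x) (Polynomial.CAlgHom (R := L) (A := L)) G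
    have h3 : ∀ c : L, (Polynomial.CAlgHom (R := L) (A := L)) c = Polynomial.C c := fun c => rfl
    rw [h3] at h2
    rw [h2]
    congr 2
    funext j
    simp [h3]
  have hfac0 : ∀ (c : L) (a : Fin s → ℕ), fac c (γv 0) a = Polynomial.C c := by
    intro c a
    unfold fac
    have : ∀ k : Fin s, (1 - Polynomial.C (γv 0 k) * Polynomial.X : Polynomial L) ^ a k = 1 := by
      intro k
      have : γv 0 k = 0 := rfl
      rw [this]
      simp
    rw [Finset.prod_congr rfl fun k _ => this k]
    simp
  obtain ⟨v, hv0, hv⟩ := Pool.Agent.H952R2.Sextic.exists_common_zero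
    (by rw [hU, hE]; exact hcard) f (fun p => by
      rw [hf]
      rcases p with p | p
      · simp only [Sum.elim_inl]
        rw [hres0, Polynomial.coeff_C_succ]
      · simp only [Sum.elim_inr]
        rw [hres0, hfac0, sub_self, Polynomial.coeff_zero])
  have hv' : ∀ p : E, Sum.elim
      (fun p => (res x (yv v) (F p.1)).coeff (p.2 + 1))
      (fun p => (res x (yv v) (Q p.1) - fac (aeval x (Q p.1)) (γv v) (e p.1)).coeff (p.2 + 1)) p
      = 0 := by
    intro p
    have h1 := hv p
    rw [hf v p] at h1
    exact h1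
  have h1 : ∀ i, res x (yv v) (F i) = 0 := by
    intro i
    ext k
    rw [Polynomial.coeff_zero]
    rcases k with _ | k
    · rw [res_coeff_zero]
      exact hxF i
    · by_cases hk : k < dF i
      · exact hv' (Sum.inl ⟨i, ⟨k, hk⟩⟩)
      · exact Polynomial.coeff_eq_zero_of_natDegree_lt
          ((res_natDegree x (yv v) (hF i)).trans_lt (by omega))
  have h2 : ∀ j, res x (yv v) (Q j) = fac (aeval x (Q j)) (γv v) (e j) := by
    intro j
    rw [← sub_eq_zero]
    ext k
    rw [Polynomial.coeff_zero]
    rcases k with _ | k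
    · rw [Polynomial.coeff_sub, res_coeff_zero, fac_coeff_zero, sub_self]
    · by_cases hk : k < dQ j
      · exact hv' (Sum.inr ⟨j, ⟨k, hk⟩⟩)
      · rw [Polynomial.coeff_sub, Polynomial.coeff_eq_zero_of_natDegree_lt
          ((res_natDegree x (yv v) (hQ j)).trans_lt (by omega)),
          Polynomial.coeff_eq_zero_of_natDegree_lt
          ((fac_natDegree _ (γv v) (e j)).trans_lt (by rw [he]; omega)), sub_self]
  refine ⟨yv v, γv v, ?_, h1, h2⟩
  intro c hc
  have hc0 : c = 0 := by
    have h3 := congrFun hc i0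
    simp only [yv, dif_pos, Pi.smul_apply, smul_eq_mul] at h3
    rcases mul_eq_zero.1 h3.symm with h4 | h4
    · exact h4
    · exact absurd h4 hi0
  rw [hc0, zero_smul] at hc
  apply hv0
  have hγ : ∀ k, γv v k = 0 := by
    intro k
    obtain ⟨j, hj⟩ := hs k
    by_contra hne
    have h3 := h2 j
    have h4 : res x (yv v) (Q j) = Polynomial.C (aeval x (Q j)) := by
      have h5 := hres0 (Q j)
      have h6 : yv 0 = 0 := by
        funext j
        simp only [yv]
        split_ifs <;> rfl
      rw [h6] at h5
      rw [hc, h5]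
    rw [h4] at h3
    have h5 := congrArg (Polynomial.eval (γv v k)⁻¹) h3
    unfold fac at h5
    rw [Polynomial.eval_C, Polynomial.eval_mul, Polynomial.eval_prod,
      Finset.prod_eq_zero (Finset.mem_univ k) (by
        rw [Polynomial.eval_pow, Polynomial.eval_sub, Polynomial.eval_mul, Polynomial.eval_C,
          Polynomial.eval_X, Polynomial.eval_one, mul_inv_cancel₀ hne, sub_self, zero_pow hj]),
      mul_zero] at h5
    exact hxQ j h5
  funext p
  rcases p with ⟨j, hj⟩ | k
  · have h3 := congrFun hc j
    simp only [yv, dif_neg hj, Pi.zero_apply] at h3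
    exact h3
  · exact hγ k

end Pool.Agent.NH27.K
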